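import Pool.Agent.SAIL.ERG.Base

/-!
SAIL: shared basic objects of parts A and D (statistics of two-dimensional sails).
Real matrices, `Om`, `Co`, `KK`, `PS`, `CSF`, `LF`, `FD` come from `ERG/Base.lean`.
-/

namespace SAIL.A

open Matrix MeasureTheory SAIL

/-- Integer 3x3 matrices. -/
abbrev IM := Matrix (Fin 3) (Fin 3) ℤ

/-- Sum of the absolute values of the entries. -/
def nrm (A : IM) : ℤ := ∑ i, ∑ j, |A i j|

/-- A primitive integer vector. -/
def prim (v : Fin 3 → ℤ) : Prop := ∀ d : ℤ, (∀ i, d ∣ v i) → IsUnit d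

/-- The i-th column. -/
def vcol (V : IM) (i : Fin 3) : Fin 3 → ℤ := fun r => V r i

/-- `V` is an eigenbasis of `A`: primitive integer columns, increasing eigenvalues `l`,
positive determinant. -/
def Eig (A V : IM) (l : Fin 3 → ℤ) : Prop :=
  A * V = V * Matrix.diagonal l ∧ l 0 < l 1 ∧ l 1 < l 2 ∧ (∀ i, prim (vcol V i)) ∧ 0 < V.det

/-- Matrices with all entries in `[-N, N]`. -/
noncomputable def box (N : ℕ) : Finset IM :=
  Fintype.piFinset fun _ => Fintype.piFinset fun _ => Finset.Icc (-(N : ℤ)) N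

open Classical in
/-- The finite set of pairs (matrix of `A_3(m)`, eigenbasis of positive determinant). -/
noncomputable def PPf (m : ℕ) : Finset (IM × IM) :=
  (box m ×ˢ box (4 * m ^ 2)).filter fun P => nrm P.1 ≤ m ∧ ∃ l, Eig P.1 P.2 l

/-- All eigenvalue gaps are at least `e * m`. -/
def Gap (e : ℝ) (m : ℕ) (P : IM × IM) : Prop :=
  ∃ l, Eig P.1 P.2 l ∧ e * m ≤ (l 1 : ℝ) - l 0 ∧ e * m ≤ (l 2 : ℝ) - l 1

/-- The content of the i-th row of the adjugate. -/
def cn (V : IM) (i : Fin 3) : ℕ := Finset.univ.gcd fun j => (V.adjugate i j).natAbs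

/-- The primitive dual eigenvector: i-th row of the adjugate divided by its content. -/
def vst (V : IM) (i : Fin 3) : Fin 3 → ℤ := fun j => V.adjugate i j / (cn V i : ℤ)

/-- Sup norm of an integer vector. -/
noncomputable def sn (v : Fin 3 → ℤ) : ℝ := ‖(fun i => (v i : ℝ) : Fin 3 → ℝ)‖

/-- The three logarithmic coordinates of a position. -/
noncomputable def pos (V : IM) (y : ℝ × ℝ) : Fin 3 → ℝ :=
  ![y.1, y.2, Real.log V.det - y.1 - y.2]

/-- The dual coordinates. -/
noncomputable def dpos (V : IM) (y : ℝ × ℝ) (i : Fin 3) : ℝ :=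
  Real.log V.det - Real.log (cn V i) - pos V y i

/-- The hexagon of positions. -/
def Hex (V : IM) : Set (ℝ × ℝ) := {y | ∀ i, 0 ≤ pos V y i ∧ 0 ≤ dpos V y i}

/-- An integer matrix as a real matrix. -/
def toR (V : IM) : M3 := V.map (fun z : ℤ => (z : ℝ))

/-- The matrix `diag(e^y) V^{-1}` (determinant 1). -/
noncomputable def gmat (V : IM) (y : ℝ × ℝ) : M3 :=
  Matrix.diagonal (fun i => Real.exp (pos V y i)) * (toR V)⁻¹

/-- No short covectors: the hypothesis of `T_MAHD`. For `det M = 1` it says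
`δ ≤ ‖n M⁻¹‖ ^ 3` for all nonzero integer row vectors `n`. -/
def Thick (δ : ℝ) (M : M3) : Prop := ∀ n : Fin 3 → ℤ, n ≠ 0 →
  δ * M.det ^ 2 ≤ ‖Matrix.vecMul (fun i => (n i : ℝ)) M.adjugate‖ ^ 3

end SAIL.A
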